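import Pool.Agent.H80.MC.Rep
import Pool.Agent.H14.PT.Div

/-!
# Lattice points on a circle with an arbitrary centre
-/

namespace Pool.Agent.H80.MC

open Finset

/-- The lattice points on the circle with centre c and radius r. -/
def onCircle (c : ℝ × ℝ) (r : ℝ) : Set (ℤ × ℤ) :=
  {p | ((p.1 : ℝ) - c.1) ^ 2 + ((p.2 : ℝ) - c.2) ^ 2 = r ^ 2}

lemma disc_finite (c : ℝ × ℝ) (r : ℝ) :
    {p : ℤ × ℤ | ((p.1 : ℝ) - c.1) ^ 2 + ((p.2 : ℝ) - c.2) ^ 2 ≤ r ^ 2}.Finite := by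
  refine Set.Finite.subset (Set.Finite.prod (Set.finite_Icc (⌈c.1 - |r|⌉) (⌊c.1 + |r|⌋))
    (Set.finite_Icc (⌈c.2 - |r|⌉) (⌊c.2 + |r|⌋))) ?_
  intro p hp
  have hp' : ((p.1 : ℝ) - c.1) ^ 2 + ((p.2 : ℝ) - c.2) ^ 2 ≤ r ^ 2 := hp
  have h1 : ((p.1 : ℝ) - c.1) ^ 2 ≤ r ^ 2 := by nlinarith [sq_nonneg ((p.2 : ℝ) - c.2)]
  have h2 : ((p.2 : ℝ) - c.2) ^ 2 ≤ r ^ 2 := by nlinarith [sq_nonneg ((p.1 : ℝ) - c.1)]
  have h3 := abs_le.1 (sq_le_sq.1 h1)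
  have h4 := abs_le.1 (sq_le_sq.1 h2)
  refine ⟨⟨Int.ceil_le.2 (by linarith [h3.1]), Int.le_floor.2 (by linarith [h3.2])⟩,
    ⟨Int.ceil_le.2 (by linarith [h4.1]), Int.le_floor.2 (by linarith [h4.2])⟩⟩

lemma onCircle_finite (c : ℝ × ℝ) (r : ℝ) : (onCircle c r).Finite :=
  (disc_finite c r).subset fun p hp => by
    have hp' : ((p.1 : ℝ) - c.1) ^ 2 + ((p.2 : ℝ) - c.2) ^ 2 = r ^ 2 := hp
    exact hp'.le

lemma sq_add_sq_zero {x y : ℝ} (h : x ^ 2 + y ^ 2 = 0) : x = 0 ∧ y = 0 := by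
  have hx := sq_nonneg x
  have hy := sq_nonneg y
  have h1 : x ^ 2 = 0 := by linarith
  have h2 : y ^ 2 = 0 := by linarith
  exact ⟨pow_eq_zero_iff two_ne_zero |>.1 h1, pow_eq_zero_iff two_ne_zero |>.1 h2⟩

/-- Two chords of a circle from one point that are parallel are equal. -/
lemma chords_eq {α β x1 y1 x2 y2 : ℝ} (hn1 : x1 ^ 2 + y1 ^ 2 = 2 * (α * x1 + β * y1))
    (hn2 : x2 ^ 2 + y2 ^ 2 = 2 * (α * x2 + β * y2)) (hD : x1 * y2 = x2 * y1)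
    (p1 : 0 < x1 ^ 2 + y1 ^ 2) (p2 : 0 < x2 ^ 2 + y2 ^ 2) : x2 = x1 ∧ y2 = y1 := by
  have k1 : (x1 ^ 2 + y1 ^ 2) * x2 = (x2 ^ 2 + y2 ^ 2) * x1 := by
    rw [hn1, hn2]
    linear_combination (-2 * β) * hD
  have k2 : (x1 ^ 2 + y1 ^ 2) * y2 = (x2 ^ 2 + y2 ^ 2) * y1 := by
    rw [hn1, hn2]
    linear_combination (2 * α) * hD
  generalize hg1 : x1 ^ 2 + y1 ^ 2 = n1 at *
  generalize hg2 : x2 ^ 2 + y2 ^ 2 = n2 at *
  have k3 : n1 ^ 2 * n2 = n2 ^ 2 * n1 := by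
    calc n1 ^ 2 * n2 = (n1 * x2) ^ 2 + (n1 * y2) ^ 2 := by rw [← hg2]; ring
      _ = (n2 * x1) ^ 2 + (n2 * y1) ^ 2 := by rw [k1, k2]
      _ = n2 ^ 2 * n1 := by rw [← hg1]; ring
  have k4 : n1 = n2 := by
    have h0 : n1 * n2 * (n1 - n2) = 0 := by linear_combination k3
    rcases mul_eq_zero.1 h0 with h | h
    · exact absurd h (mul_pos p1 p2).ne'
    · linarith
  subst k4
  exact ⟨mul_left_cancel₀ p1.ne' k1, mul_left_cancel₀ p1.ne' k2⟩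

lemma chord_le {u v u' v' R : ℝ} (h : u ^ 2 + v ^ 2 = R) (h' : u' ^ 2 + v' ^ 2 = R) :
    (u - u') ^ 2 + (v - v') ^ 2 ≤ 4 * R := by
  nlinarith [sq_nonneg (u + u'), sq_nonneg (v + v')]

lemma det_sq_le (x1 y1 x2 y2 : ℝ) :
    (x1 * y2 - x2 * y1) ^ 2 ≤ (x1 ^ 2 + y1 ^ 2) * (x2 ^ 2 + y2 ^ 2) := by
  nlinarith [sq_nonneg (x1 * x2 + y1 * y2)]

/-- Three distinct lattice points on a circle are not collinear. -/
lemma det_ne_zero {p0 p1 p2 : ℤ × ℤ} {c : ℝ × ℝ} {R : ℝ}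
    (e0 : ((p0.1 : ℝ) - c.1) ^ 2 + ((p0.2 : ℝ) - c.2) ^ 2 = R)
    (e1 : ((p1.1 : ℝ) - c.1) ^ 2 + ((p1.2 : ℝ) - c.2) ^ 2 = R)
    (e2 : ((p2.1 : ℝ) - c.1) ^ 2 + ((p2.2 : ℝ) - c.2) ^ 2 = R)
    (h01 : p0 ≠ p1) (h02 : p0 ≠ p2) (h12 : p1 ≠ p2) :
    (p1.1 - p0.1) * (p2.2 - p0.2) - (p2.1 - p0.1) * (p1.2 - p0.2) ≠ 0 := by
  intro hD0
  obtain ⟨a0, b0⟩ := p0
  obtain ⟨a1, b1⟩ := p1
  obtain ⟨a2, b2⟩ := p2
  simp only at *
  have hDr : ((a1 : ℝ) - a0) * ((b2 : ℝ) - b0) = ((a2 : ℝ) - a0) * ((b1 : ℝ) - b0) := by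
    have : (a1 - a0) * (b2 - b0) = (a2 - a0) * (b1 - b0) := by linarith
    exact_mod_cast this
  have hn1 : ((a1 : ℝ) - a0) ^ 2 + ((b1 : ℝ) - b0) ^ 2
      = 2 * ((c.1 - a0) * ((a1 : ℝ) - a0) + (c.2 - b0) * ((b1 : ℝ) - b0)) := by
    linear_combination e1 - e0
  have hn2 : ((a2 : ℝ) - a0) ^ 2 + ((b2 : ℝ) - b0) ^ 2
      = 2 * ((c.1 - a0) * ((a2 : ℝ) - a0) + (c.2 - b0) * ((b2 : ℝ) - b0)) := by
    linear_combination e2 - e0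
  have pos1 : 0 < ((a1 : ℝ) - a0) ^ 2 + ((b1 : ℝ) - b0) ^ 2 := by
    rcases lt_or_eq_of_le
      (show 0 ≤ ((a1 : ℝ) - a0) ^ 2 + ((b1 : ℝ) - b0) ^ 2 by positivity) with h | h
    · exact h
    · obtain ⟨hx, hy⟩ := sq_add_sq_zero h.symm
      have hx' : a0 = a1 := by
        have : (a0 : ℝ) = a1 := by linarith
        exact_mod_cast this
      have hy' : b0 = b1 := by
        have : (b0 : ℝ) = b1 := by linarith
        exact_mod_cast this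
      exact absurd (by rw [hx', hy']) h01
  have pos2 : 0 < ((a2 : ℝ) - a0) ^ 2 + ((b2 : ℝ) - b0) ^ 2 := by
    rcases lt_or_eq_of_le
      (show 0 ≤ ((a2 : ℝ) - a0) ^ 2 + ((b2 : ℝ) - b0) ^ 2 by positivity) with h | h
    · exact h
    · obtain ⟨hx, hy⟩ := sq_add_sq_zero h.symm
      have hx' : a0 = a2 := by
        have : (a0 : ℝ) = a2 := by linarith
        exact_mod_cast this
      have hy' : b0 = b2 := by
        have : (b0 : ℝ) = b2 := by linarith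
        exact_mod_cast this
      exact absurd (by rw [hx', hy']) h02
  obtain ⟨k1, k2⟩ := chords_eq hn1 hn2 hDr pos1 pos2
  have hx' : a1 = a2 := by
    have : (a1 : ℝ) = a2 := by linarith
    exact_mod_cast this
  have hy' : b1 = b2 := by
    have : (b1 : ℝ) = b2 := by linarith
    exact_mod_cast this
  exact absurd (by rw [hx', hy']) h12

/-- A circle with real centre and radius r that carries at least three lattice points is a scaled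
copy of a circle x² + y² = N with N at most 64 r⁶. -/
lemma circle_scale (c : ℝ × ℝ) (r : ℝ) (hr : 0 < r) (h3 : 2 < (onCircle c r).ncard) :
    ∃ N : ℕ, 0 < N ∧ (N : ℝ) ≤ 64 * r ^ 6 ∧ (onCircle c r).ncard ≤ (reps N).card := by
  rw [Set.two_lt_ncard_iff (onCircle_finite c r)] at h3
  obtain ⟨p0, p1, p2, h0, h1, h2, h01, h02, h12⟩ := h3
  have e0 : ((p0.1 : ℝ) - c.1) ^ 2 + ((p0.2 : ℝ) - c.2) ^ 2 = r ^ 2 := h0
  have e1 : ((p1.1 : ℝ) - c.1) ^ 2 + ((p1.2 : ℝ) - c.2) ^ 2 = r ^ 2 := h1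
  have e2 : ((p2.1 : ℝ) - c.1) ^ 2 + ((p2.2 : ℝ) - c.2) ^ 2 = r ^ 2 := h2
  set X1 : ℤ := p1.1 - p0.1 with hX1
  set Y1 : ℤ := p1.2 - p0.2 with hY1
  set X2 : ℤ := p2.1 - p0.1 with hX2
  set Y2 : ℤ := p2.2 - p0.2 with hY2
  have rX1 : (X1 : ℝ) = (p1.1 : ℝ) - p0.1 := by rw [hX1]; push_cast; ring
  have rY1 : (Y1 : ℝ) = (p1.2 : ℝ) - p0.2 := by rw [hY1]; push_cast; ring
  have rX2 : (X2 : ℝ) = (p2.1 : ℝ) - p0.1 := by rw [hX2]; push_cast; ring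
  have rY2 : (Y2 : ℝ) = (p2.2 : ℝ) - p0.2 := by rw [hY2]; push_cast; ring
  set A1 : ℤ := p1.1 ^ 2 + p1.2 ^ 2 - p0.1 ^ 2 - p0.2 ^ 2 with hA1
  set A2 : ℤ := p2.1 ^ 2 + p2.2 ^ 2 - p0.1 ^ 2 - p0.2 ^ 2 with hA2
  have rA1 : 2 * ((X1 : ℝ) * c.1 + Y1 * c.2) = A1 := by
    rw [rX1, rY1, hA1]; push_cast; linear_combination e0 - e1
  have rA2 : 2 * ((X2 : ℝ) * c.1 + Y2 * c.2) = A2 := by
    rw [rX2, rY2, hA2]; push_cast; linear_combination e0 - e2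
  set D : ℤ := X1 * Y2 - X2 * Y1 with hD
  have hD0 : D ≠ 0 := det_ne_zero e0 e1 e2 h01 h02 h12
  set q : ℤ := 2 * D with hq
  set a : ℤ := A1 * Y2 - A2 * Y1 with ha
  set b : ℤ := X1 * A2 - X2 * A1 with hb
  have hq0 : q ≠ 0 := by rw [hq]; exact mul_ne_zero two_ne_zero hD0
  have hac : (q : ℝ) * c.1 = a := by
    rw [hq, ha, hD]; push_cast; rw [← rA1, ← rA2]; ring
  have hbc : (q : ℝ) * c.2 = b := by
    rw [hq, hb, hD]; push_cast; rw [← rA1, ← rA2]; ring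
  have hscale : ∀ p : ℤ × ℤ, ((p.1 : ℝ) - c.1) ^ 2 + ((p.2 : ℝ) - c.2) ^ 2 = r ^ 2 →
      ((q : ℝ) * p.1 - a) ^ 2 + ((q : ℝ) * p.2 - b) ^ 2 = (q : ℝ) ^ 2 * r ^ 2 := by
    intro p hp
    rw [← hac, ← hbc, ← hp]; ring
  set N : ℕ := ((q * p0.1 - a) ^ 2 + (q * p0.2 - b) ^ 2).toNat with hN
  have hNz : (N : ℤ) = (q * p0.1 - a) ^ 2 + (q * p0.2 - b) ^ 2 :=
    Int.toNat_of_nonneg (by positivity)
  have hNr : (N : ℝ) = (q : ℝ) ^ 2 * r ^ 2 := by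
    have h1 := hscale p0 e0
    have h2 : ((N : ℤ) : ℝ) = ((q : ℝ) * p0.1 - a) ^ 2 + ((q : ℝ) * p0.2 - b) ^ 2 := by
      rw [hNz]; push_cast; ring
    rw [← h1, ← h2]; norm_cast
  have hqr : (q : ℝ) ≠ 0 := by exact_mod_cast hq0
  have hNpos : (0 : ℝ) < N := by rw [hNr]; positivity
  refine ⟨N, by exact_mod_cast hNpos, ?_, ?_⟩
  · rw [hNr]
    have hc1 : (X1 : ℝ) ^ 2 + (Y1 : ℝ) ^ 2 ≤ 4 * r ^ 2 := by
      have h := chord_le e1 e0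
      rw [rX1, rY1]
      calc _ = _ := by ring
        _ ≤ _ := h
    have hc2 : (X2 : ℝ) ^ 2 + (Y2 : ℝ) ^ 2 ≤ 4 * r ^ 2 := by
      have h := chord_le e2 e0
      rw [rX2, rY2]
      calc _ = _ := by ring
        _ ≤ _ := h
    have hDD : ((D : ℝ)) ^ 2 ≤ ((X1 : ℝ) ^ 2 + (Y1 : ℝ) ^ 2) * ((X2 : ℝ) ^ 2 + (Y2 : ℝ) ^ 2) := by
      rw [hD]; push_cast
      exact det_sq_le _ _ _ _
    have hDD2 : ((D : ℝ)) ^ 2 ≤ (4 * r ^ 2) * (4 * r ^ 2) :=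
      hDD.trans (mul_le_mul hc1 hc2 (by positivity) (by positivity))
    have hqD : (q : ℝ) ^ 2 = 4 * (D : ℝ) ^ 2 := by rw [hq]; push_cast; ring
    rw [hqD]
    have : 4 * (D : ℝ) ^ 2 * r ^ 2 ≤ 4 * ((4 * r ^ 2) * (4 * r ^ 2)) * r ^ 2 := by
      have hr2 : 0 ≤ r ^ 2 := by positivity
      nlinarith
    calc 4 * (D : ℝ) ^ 2 * r ^ 2 ≤ 4 * ((4 * r ^ 2) * (4 * r ^ 2)) * r ^ 2 := this
      _ = 64 * r ^ 6 := by ring
  · rw [← Set.ncard_coe_finset (reps N)]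
    refine Set.ncard_le_ncard_of_injOn (fun p : ℤ × ℤ => (q * p.1 - a, q * p.2 - b)) ?_ ?_
      (Finset.finite_toSet _)
    · intro p hp
      refine Finset.mem_coe.2 ((mem_reps N _).2 ?_)
      have h1 := hscale p hp
      have h2 : (((q * p.1 - a) ^ 2 + (q * p.2 - b) ^ 2 : ℤ) : ℝ) = ((N : ℤ) : ℝ) := by
        push_cast
        rw [h1, hNr]
      exact_mod_cast h2
    · intro p _ p' _ hpp
      simp only [Prod.mk.injEq] at hpp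
      have h1 : q * p.1 = q * p'.1 := by linarith [hpp.1]
      have h2 : q * p.2 = q * p'.2 := by linarith [hpp.2]
      exact Prod.ext (mul_left_cancel₀ hq0 h1) (mul_left_cancel₀ hq0 h2)

/-- The number of lattice points on a circle of radius r is O(r^ε), uniformly in the centre. -/
theorem circle_bound (η : ℝ) (hη : 0 < η) :
    ∃ C : ℝ, 1 ≤ C ∧ ∀ (c : ℝ × ℝ) (r : ℝ), 0 < r →
      ((onCircle c r).ncard : ℝ) ≤ 2 + 11 * (C * (256 * r ^ 6) ^ η) ^ 2 := by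
  obtain ⟨C, hC1, hC⟩ := Pool.Agent.H14.PT.divisor_bound η hη
  refine ⟨C, hC1, fun c r hr => ?_⟩
  have hpos : 0 ≤ 11 * (C * (256 * r ^ 6) ^ η) ^ 2 := by positivity
  rcases Nat.lt_or_ge 2 (onCircle c r).ncard with h | h
  · obtain ⟨N, hN, hNr, hcard⟩ := circle_scale c r hr h
    have h1 := rep_bound N hN
    have h2 := hC (4 * N) (by omega)
    have h3 : ((4 * N : ℕ) : ℝ) ^ η ≤ (256 * r ^ 6) ^ η := by
      refine Real.rpow_le_rpow (by positivity) ?_ hη.le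
      push_cast
      linarith
    have h4 : ((4 * N).divisors.card : ℝ) ≤ C * (256 * r ^ 6) ^ η :=
      h2.trans (mul_le_mul_of_nonneg_left h3 (by linarith))
    have h5 : ((onCircle c r).ncard : ℝ) ≤ 11 * ((4 * N).divisors.card : ℝ) ^ 2 := by
      exact_mod_cast hcard.trans h1
    have h6 : ((4 * N).divisors.card : ℝ) ^ 2 ≤ (C * (256 * r ^ 6) ^ η) ^ 2 :=
      pow_le_pow_left₀ (by positivity) h4 2
    linarith
  · have : ((onCircle c r).ncard : ℝ) ≤ 2 := by exact_mod_cast h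
    linarith

end Pool.Agent.H80.MC
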