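import Pool.Agent.H80.MC.Circle

/-!
# Short gaps between MC integers
-/

namespace Pool.Agent.H80.MC

open Filter Topology

/-- The lattice points strictly inside the circle with centre c and radius r. -/
def inside (c : ℝ × ℝ) (r : ℝ) : Set (ℤ × ℤ) :=
  {p | ((p.1 : ℝ) - c.1) ^ 2 + ((p.2 : ℝ) - c.2) ^ 2 < r ^ 2}

/-- The circle with centre c and radius r (r positive) is n-enclosing. -/
def Encloses (n : ℕ) (c : ℝ × ℝ) (r : ℝ) : Prop := 0 < r ∧ (inside c r).ncard = n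

/-- n is MC: some n-enclosing circle has the largest radius among all n-enclosing circles. -/
def IsMC (n : ℕ) : Prop := ∃ c r, Encloses n c r ∧ ∀ c' r', Encloses n c' r' → r' ≤ r

lemma inside_finite (c : ℝ × ℝ) (r : ℝ) : (inside c r).Finite :=
  (disc_finite c r).subset fun p hp => by
    have hp' : ((p.1 : ℝ) - c.1) ^ 2 + ((p.2 : ℝ) - c.2) ^ 2 < r ^ 2 := hp
    exact hp'.le

lemma icc_card_lower (x r : ℝ) :
    r - 1 ≤ ((Finset.Icc ⌈x - r / 2⌉ ⌊x + r / 2⌋).card : ℝ) := by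
  rw [Int.card_Icc]
  have h1 := Int.ceil_lt_add_one (x - r / 2)
  have h2 := Int.lt_floor_add_one (x + r / 2)
  have h3 : ((⌊x + r / 2⌋ + 1 - ⌈x - r / 2⌉ : ℤ) : ℝ) ≤
      ((⌊x + r / 2⌋ + 1 - ⌈x - r / 2⌉ : ℤ).toNat : ℝ) := by
    exact_mod_cast Int.self_le_toNat _
  push_cast at h3
  linarith

/-- A disc of radius r contains at least (r-1)² lattice points. -/
lemma count_lower (c : ℝ × ℝ) (r : ℝ) (hr : 1 ≤ r) :
    (r - 1) ^ 2 ≤ ((inside c r).ncard : ℝ) := by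
  classical
  set F : Finset (ℤ × ℤ) := Finset.Icc ⌈c.1 - r / 2⌉ ⌊c.1 + r / 2⌋ ×ˢ
    Finset.Icc ⌈c.2 - r / 2⌉ ⌊c.2 + r / 2⌋ with hF
  have hsub : (F : Set (ℤ × ℤ)) ⊆ inside c r := by
    intro p hp
    rw [hF, Finset.mem_coe, Finset.mem_product, Finset.mem_Icc, Finset.mem_Icc] at hp
    obtain ⟨⟨h1, h2⟩, h3, h4⟩ := hp
    rw [Int.ceil_le] at h1 h3
    rw [Int.le_floor] at h2 h4
    have a1 : ((p.1 : ℝ) - c.1) ^ 2 ≤ (r / 2) ^ 2 := by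
      apply sq_le_sq'
      · linarith
      · linarith
    have a2 : ((p.2 : ℝ) - c.2) ^ 2 ≤ (r / 2) ^ 2 := by
      apply sq_le_sq'
      · linarith
      · linarith
    show ((p.1 : ℝ) - c.1) ^ 2 + ((p.2 : ℝ) - c.2) ^ 2 < r ^ 2
    have : 0 < r ^ 2 := by positivity
    nlinarith
  have hcard : F.card ≤ (inside c r).ncard := by
    rw [← Set.ncard_coe_finset]
    exact Set.ncard_le_ncard hsub (inside_finite c r)
  have h1 := icc_card_lower c.1 r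
  have h2 := icc_card_lower c.2 r
  have h3 : (F.card : ℝ) = ((Finset.Icc ⌈c.1 - r / 2⌉ ⌊c.1 + r / 2⌋).card : ℝ) *
      ((Finset.Icc ⌈c.2 - r / 2⌉ ⌊c.2 + r / 2⌋).card : ℝ) := by
    rw [hF, Finset.card_product]; push_cast; ring
  have h4 : (F.card : ℝ) ≤ ((inside c r).ncard : ℝ) := by exact_mod_cast hcard
  calc (r - 1) ^ 2 = (r - 1) * (r - 1) := by ring
    _ ≤ _ := mul_le_mul h1 h2 (by linarith) (by linarith)
    _ = (F.card : ℝ) := h3.symm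
    _ ≤ _ := h4

/-- Translating the centre by a lattice vector does not change the number of enclosed points. -/
lemma inside_translate (c : ℝ × ℝ) (r : ℝ) (u v : ℤ) :
    (inside (c.1 - u, c.2 - v) r).ncard = (inside c r).ncard := by
  have : inside c r = (fun p : ℤ × ℤ => (p.1 + u, p.2 + v)) '' inside (c.1 - u, c.2 - v) r := by
    ext p
    constructor
    · intro hp
      refine ⟨(p.1 - u, p.2 - v), ?_, by simp⟩
      have hp' : ((p.1 : ℝ) - c.1) ^ 2 + ((p.2 : ℝ) - c.2) ^ 2 < r ^ 2 := hp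
      show (((p.1 - u : ℤ) : ℝ) - (c.1 - u)) ^ 2 + (((p.2 - v : ℤ) : ℝ) - (c.2 - v)) ^ 2 < r ^ 2
      push_cast
      calc _ = ((p.1 : ℝ) - c.1) ^ 2 + ((p.2 : ℝ) - c.2) ^ 2 := by ring
        _ < _ := hp'
    · rintro ⟨q, hq, rfl⟩
      have hq' : ((q.1 : ℝ) - (c.1 - u)) ^ 2 + ((q.2 : ℝ) - (c.2 - v)) ^ 2 < r ^ 2 := hq
      show (((q.1 + u : ℤ) : ℝ) - c.1) ^ 2 + (((q.2 + v : ℤ) : ℝ) - c.2) ^ 2 < r ^ 2
      push_cast
      calc _ = ((q.1 : ℝ) - (c.1 - u)) ^ 2 + ((q.2 : ℝ) - (c.2 - v)) ^ 2 := by ring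
        _ < _ := hq'
  rw [this, Set.ncard_image_of_injective]
  intro p q hpq
  simp only [Prod.mk.injEq] at hpq
  exact Prod.ext (by linarith [hpq.1]) (by linarith [hpq.2])

/-- Enclosed points stay enclosed under small changes of centre and radius. -/
lemma inside_lsc (c : ℝ × ℝ) (r : ℝ) :
    ∀ᶠ x : (ℝ × ℝ) × ℝ in 𝓝 (c, r), inside c r ⊆ inside x.1 x.2 := by
  have h : ∀ᶠ x : (ℝ × ℝ) × ℝ in 𝓝 (c, r), ∀ p ∈ inside c r, p ∈ inside x.1 x.2 := by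
    refine (eventually_all_finite (inside_finite c r)).2 fun p hp => ?_
    have hp' : ((p.1 : ℝ) - c.1) ^ 2 + ((p.2 : ℝ) - c.2) ^ 2 < r ^ 2 := hp
    have hcont : Continuous fun x : (ℝ × ℝ) × ℝ =>
        ((p.1 : ℝ) - x.1.1) ^ 2 + ((p.2 : ℝ) - x.1.2) ^ 2 - x.2 ^ 2 := by fun_prop
    have h1 : ∀ᶠ x : (ℝ × ℝ) × ℝ in 𝓝 (c, r),
        ((p.1 : ℝ) - x.1.1) ^ 2 + ((p.2 : ℝ) - x.1.2) ^ 2 - x.2 ^ 2 < 0 :=
      hcont.continuousAt.eventually_lt_const (by simpa using hp')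
    filter_upwards [h1] with x hx
    show ((p.1 : ℝ) - x.1.1) ^ 2 + ((p.2 : ℝ) - x.1.2) ^ 2 < x.2 ^ 2
    linarith
  exact h

/-- The radii of circles with at most n enclosed points. -/
def radii (n : ℕ) : Set ℝ := {r | 0 < r ∧ ∃ c, (inside c r).ncard ≤ n}

lemma half_mem (n : ℕ) : (1 / 2 : ℝ) ∈ radii n := by
  refine ⟨by norm_num, (1 / 2, 1 / 2), ?_⟩
  have : inside (1 / 2, 1 / 2) (1 / 2) = ∅ := by
    ext p
    simp only [inside, Set.mem_ofPred_eq, Set.mem_empty_iff_false, iff_false, not_lt]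
    have key : ∀ a : ℤ, (1 / 2 : ℝ) ^ 2 ≤ ((a : ℝ) - 1 / 2) ^ 2 := by
      intro a
      rcases le_or_gt a 0 with h | h
      · have : (a : ℝ) ≤ 0 := by exact_mod_cast h
        nlinarith
      · have : (1 : ℝ) ≤ a := by exact_mod_cast h
        nlinarith
    nlinarith [key p.1, key p.2]
  rw [this]
  simp

lemma radii_le (n : ℕ) {r : ℝ} (hr : r ∈ radii n) : r ≤ Real.sqrt n + 1 := by
  obtain ⟨h0, c, hc⟩ := hr
  rcases le_or_gt r 1 with h | h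
  · have := Real.sqrt_nonneg (n : ℝ)
    linarith
  · have h1 := count_lower c r h.le
    have h2 : ((inside c r).ncard : ℝ) ≤ n := by exact_mod_cast hc
    have h3 : r - 1 ≤ Real.sqrt n := Real.le_sqrt_of_sq_le (h1.trans h2)
    linarith

lemma radii_bdd (n : ℕ) : BddAbove (radii n) := ⟨_, fun _ hr => radii_le n hr⟩

/-- The supremum of the radii of circles with at most n enclosed points is attained. -/
lemma sup_attained (n : ℕ) : ∃ c, (inside c (sSup (radii n))).ncard ≤ n := by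
  obtain ⟨r, -, htend, hmem⟩ := exists_seq_tendsto_sSup ⟨_, half_mem n⟩ (radii_bdd n)
  have hex : ∀ k, ∃ c : ℝ × ℝ, c ∈ (Set.Icc (0 : ℝ) 1 ×ˢ Set.Icc (0 : ℝ) 1) ∧
      (inside c (r k)).ncard ≤ n := by
    intro k
    obtain ⟨-, c, hc⟩ := hmem k
    refine ⟨(c.1 - ⌊c.1⌋, c.2 - ⌊c.2⌋), ⟨⟨?_, ?_⟩, ?_, ?_⟩, ?_⟩
    · simp
    · have := (Int.lt_floor_add_one c.1).le
      show c.1 - ⌊c.1⌋ ≤ 1
      linarith
    · simp
    · have := (Int.lt_floor_add_one c.2).le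
      show c.2 - ⌊c.2⌋ ≤ 1
      linarith
    · rw [inside_translate]
      exact hc
  choose c hcm hcn using hex
  have hcomp : IsCompact (Set.Icc (0 : ℝ) 1 ×ˢ Set.Icc (0 : ℝ) 1) := isCompact_Icc.prod isCompact_Icc
  obtain ⟨c0, -, φ, hφ, hlim⟩ := hcomp.tendsto_subseq hcm
  refine ⟨c0, ?_⟩
  have h1 : Tendsto (fun k => (c (φ k), r (φ k))) atTop (𝓝 (c0, sSup (radii n))) :=
    hlim.prodMk_nhds (htend.comp hφ.tendsto_atTop)
  obtain ⟨k, hk⟩ := (h1.eventually (inside_lsc c0 (sSup (radii n)))).exists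
  exact (Set.ncard_le_ncard hk (inside_finite _ _)).trans (hcn (φ k))

/-- A small shift of the centre. -/
lemma shift_subset (c : ℝ × ℝ) (ρ : ℝ) (hρ : 0 < ρ) (σ : ℝ) (hσ : |σ| = 1) :
    ∃ δ : ℝ, 0 < δ ∧ inside (c.1 + σ * δ, c.2) (Real.sqrt (ρ ^ 2 + δ ^ 2)) ⊆
      inside c ρ ∪ {p ∈ onCircle c ρ | 0 < σ * ((p.1 : ℝ) - c.1)} := by
  have hσ2 : σ ^ 2 = 1 := by rw [← sq_abs, hσ]; norm_num
  have hfin := disc_finite c (ρ + 1)
  have hev : ∀ᶠ δ : ℝ in 𝓝[>] 0, ∀ p ∈ {p : ℤ × ℤ |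
      ((p.1 : ℝ) - c.1) ^ 2 + ((p.2 : ℝ) - c.2) ^ 2 ≤ (ρ + 1) ^ 2},
      ρ ^ 2 < ((p.1 : ℝ) - c.1) ^ 2 + ((p.2 : ℝ) - c.2) ^ 2 →
        ρ ^ 2 + 2 * (σ * δ) * ((p.1 : ℝ) - c.1) <
          ((p.1 : ℝ) - c.1) ^ 2 + ((p.2 : ℝ) - c.2) ^ 2 := by
    refine (eventually_all_finite hfin).2 fun p _ => ?_
    by_cases hp : ρ ^ 2 < ((p.1 : ℝ) - c.1) ^ 2 + ((p.2 : ℝ) - c.2) ^ 2
    · have hcont : Continuous fun δ : ℝ => ρ ^ 2 + 2 * (σ * δ) * ((p.1 : ℝ) - c.1) := by fun_prop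
      have h1 : ∀ᶠ δ : ℝ in 𝓝 0, ρ ^ 2 + 2 * (σ * δ) * ((p.1 : ℝ) - c.1) <
          ((p.1 : ℝ) - c.1) ^ 2 + ((p.2 : ℝ) - c.2) ^ 2 :=
        hcont.continuousAt.eventually_lt_const (by simpa using hp)
      filter_upwards [h1.filter_mono nhdsWithin_le_nhds] with δ hδ _
      exact hδ
    · exact Eventually.of_forall fun δ h => absurd h hp
  have hsmall : ∀ᶠ δ : ℝ in 𝓝[>] 0, δ < 1 / 2 :=
    (eventually_lt_nhds (by norm_num)).filter_mono nhdsWithin_le_nhds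
  obtain ⟨δ, hδ, hδs, hδ0⟩ := (hev.and (hsmall.and self_mem_nhdsWithin)).exists
  have hδ0' : 0 < δ := hδ0
  refine ⟨δ, hδ0', fun p hp => ?_⟩
  have hp' : ((p.1 : ℝ) - (c.1 + σ * δ)) ^ 2 + ((p.2 : ℝ) - c.2) ^ 2 <
      (Real.sqrt (ρ ^ 2 + δ ^ 2)) ^ 2 := hp
  rw [Real.sq_sqrt (by positivity)] at hp'
  set x : ℝ := (p.1 : ℝ) - c.1 with hx
  set y : ℝ := (p.2 : ℝ) - c.2 with hy
  have h1 : x ^ 2 + y ^ 2 < ρ ^ 2 + 2 * (σ * δ) * x := by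
    have e : ((p.1 : ℝ) - (c.1 + σ * δ)) ^ 2 = x ^ 2 - 2 * (σ * δ) * x + σ ^ 2 * δ ^ 2 := by
      rw [hx]; ring
    rw [e, hσ2] at hp'
    linarith
  have hle : x ^ 2 + y ^ 2 ≤ ρ ^ 2 := by
    by_contra hcon
    push Not at hcon
    have hbig : x ^ 2 + y ^ 2 ≤ (ρ + 1) ^ 2 := by
      set s : ℝ := Real.sqrt (x ^ 2 + y ^ 2) with hs
      have hs2 : s ^ 2 = x ^ 2 + y ^ 2 := Real.sq_sqrt (by positivity)
      have hs0 : 0 ≤ s := Real.sqrt_nonneg _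
      have hxs : |x| ≤ s := by
        rw [← Real.sqrt_sq_eq_abs]
        exact Real.sqrt_le_sqrt (by nlinarith [sq_nonneg y])
      have hsx : σ * x ≤ s := by
        calc σ * x ≤ |σ * x| := le_abs_self _
          _ = |x| := by rw [abs_mul, hσ, one_mul]
          _ ≤ s := hxs
      have h2 : s ^ 2 < ρ ^ 2 + 2 * δ * s := by
        rw [hs2]
        calc x ^ 2 + y ^ 2 < ρ ^ 2 + 2 * δ * (σ * x) := by linarith
          _ ≤ ρ ^ 2 + 2 * δ * s := by nlinarith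
      have h3 : s ^ 2 < ρ ^ 2 + s := by nlinarith
      have h4 : s ≤ ρ + 1 := by
        by_contra h5
        push Not at h5
        nlinarith
      rw [← hs2]
      nlinarith
    have := hδ p hbig hcon
    linarith
  rcases lt_or_eq_of_le hle with h | h
  · exact Or.inl h
  · refine Or.inr ⟨h, ?_⟩
    have h2 : 0 < 2 * δ * (σ * x) := by
      rw [h] at h1
      linarith
    have h3 : 0 < 2 * δ := by linarith
    exact (mul_pos_iff_of_pos_left h3).1 h2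

/-- The main counting step. -/
lemma mc_below (n : ℕ) : ∃ m, m ≤ n ∧ IsMC m ∧ ∃ (c : ℝ × ℝ) (ρ : ℝ), 0 < ρ ∧
    ρ ≤ Real.sqrt n + 1 ∧ 2 * (n + 1) ≤ 2 * m + (onCircle c ρ).ncard := by
  obtain ⟨c, hc⟩ := sup_attained n
  set ρ : ℝ := sSup (radii n) with hρdef
  have hρ : 0 < ρ := lt_of_lt_of_le (by norm_num) (le_csSup (radii_bdd n) (half_mem n))
  have hmem : ρ ∈ radii n := ⟨hρ, c, hc⟩
  have hbig : ∀ (c' : ℝ × ℝ) (r' : ℝ), ρ < r' → n + 1 ≤ (inside c' r').ncard := by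
    intro c' r' hr'
    by_contra hcon
    have : r' ∈ radii n := ⟨hρ.trans hr', c', by omega⟩
    exact absurd (le_csSup (radii_bdd n) this) (not_le.2 hr')
  have hside : ∀ σ : ℝ, |σ| = 1 → n + 1 ≤ (inside c ρ).ncard +
      {p ∈ onCircle c ρ | 0 < σ * ((p.1 : ℝ) - c.1)}.ncard := by
    intro σ hσ
    obtain ⟨δ, hδ, hsub⟩ := shift_subset c ρ hρ σ hσ
    have h1 : ρ < Real.sqrt (ρ ^ 2 + δ ^ 2) := by
      apply Real.lt_sqrt_of_sq_lt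
      have : 0 < δ ^ 2 := by positivity
      linarith
    have h2 := hbig (c.1 + σ * δ, c.2) _ h1
    have hfin : (inside c ρ ∪ {p ∈ onCircle c ρ | 0 < σ * ((p.1 : ℝ) - c.1)}).Finite :=
      (inside_finite c ρ).union ((onCircle_finite c ρ).subset fun p hp => hp.1)
    calc n + 1 ≤ _ := h2
      _ ≤ _ := Set.ncard_le_ncard hsub hfin
      _ ≤ _ := Set.ncard_union_le _ _
  have hp := hside 1 (by simp)
  have hm := hside (-1) (by simp)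
  have hdisj : Disjoint {p ∈ onCircle c ρ | 0 < (1 : ℝ) * ((p.1 : ℝ) - c.1)}
      {p ∈ onCircle c ρ | 0 < (-1 : ℝ) * ((p.1 : ℝ) - c.1)} := by
    rw [Set.disjoint_left]
    rintro p ⟨_, h1⟩ ⟨_, h2⟩
    linarith
  have hfp : {p ∈ onCircle c ρ | 0 < (1 : ℝ) * ((p.1 : ℝ) - c.1)}.Finite :=
    (onCircle_finite c ρ).subset fun p hp => hp.1
  have hfm : {p ∈ onCircle c ρ | 0 < (-1 : ℝ) * ((p.1 : ℝ) - c.1)}.Finite :=
    (onCircle_finite c ρ).subset fun p hp => hp.1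
  have hsum : {p ∈ onCircle c ρ | 0 < (1 : ℝ) * ((p.1 : ℝ) - c.1)}.ncard +
      {p ∈ onCircle c ρ | 0 < (-1 : ℝ) * ((p.1 : ℝ) - c.1)}.ncard ≤ (onCircle c ρ).ncard := by
    rw [← Set.ncard_union_eq hdisj hfp hfm]
    exact Set.ncard_le_ncard (Set.union_subset (fun p hp => hp.1) (fun p hp => hp.1))
      (onCircle_finite c ρ)
  refine ⟨(inside c ρ).ncard, hc, ⟨c, ρ, ⟨hρ, rfl⟩, ?_⟩, c, ρ, hρ, radii_le n hmem, by omega⟩
  intro c' r' h'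
  exact le_csSup (radii_bdd n) ⟨h'.1, c', by rw [h'.2]; exact hc⟩

/-- Gaps between MC integers are at most n^{o(1)}. -/
theorem short_gaps (ε : ℝ) (hε : 0 < ε) :
    ∃ C : ℝ, ∀ n : ℕ, ∃ m : ℕ, m ≤ n ∧ IsMC m ∧ (n : ℝ) - m ≤ C * ((n : ℝ) + 1) ^ ε := by
  obtain ⟨C, hC1, hC⟩ := circle_bound (ε / 6) (by positivity)
  refine ⟨11 / 2 * C ^ 2 * (16384 : ℝ) ^ (ε / 3), fun n => ?_⟩
  obtain ⟨m, hmn, hIs, c, ρ, hρ, hρn, hcount⟩ := mc_below n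
  refine ⟨m, hmn, hIs, ?_⟩
  have h1 := hC c ρ hρ
  have h2 : 2 * ((n : ℝ) + 1) ≤ 2 * m + ((onCircle c ρ).ncard : ℝ) := by exact_mod_cast hcount
  have h3 : (n : ℝ) - m ≤ 11 / 2 * (C * (256 * ρ ^ 6) ^ (ε / 6)) ^ 2 := by linarith
  have h4 : ρ ≤ 2 * Real.sqrt ((n : ℝ) + 1) := by
    have a1 : Real.sqrt n ≤ Real.sqrt ((n : ℝ) + 1) := Real.sqrt_le_sqrt (by linarith)
    have a2 : 1 ≤ Real.sqrt ((n : ℝ) + 1) := by
      rw [Real.one_le_sqrt]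
      have : (0 : ℝ) ≤ n := Nat.cast_nonneg n
      linarith
    linarith
  have hn1 : (0 : ℝ) < (n : ℝ) + 1 := by positivity
  have h5 : 256 * ρ ^ 6 ≤ 16384 * ((n : ℝ) + 1) ^ 3 := by
    have b1 : ρ ^ 6 ≤ (2 * Real.sqrt ((n : ℝ) + 1)) ^ 6 := pow_le_pow_left₀ hρ.le h4 6
    have b2 : (2 * Real.sqrt ((n : ℝ) + 1)) ^ 6 = 64 * ((n : ℝ) + 1) ^ 3 := by
      rw [mul_pow, show (Real.sqrt ((n : ℝ) + 1)) ^ 6 = ((Real.sqrt ((n : ℝ) + 1)) ^ 2) ^ 3 by ring,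
        Real.sq_sqrt hn1.le]
      norm_num
    rw [b2] at b1
    linarith
  have h6 : (256 * ρ ^ 6) ^ (ε / 6) ≤ (16384 * ((n : ℝ) + 1) ^ 3) ^ (ε / 6) :=
    Real.rpow_le_rpow (by positivity) h5 (by positivity)
  have h7 : ((16384 * ((n : ℝ) + 1) ^ 3) ^ (ε / 6)) ^ 2 =
      (16384 : ℝ) ^ (ε / 3) * ((n : ℝ) + 1) ^ ε := by
    rw [← Real.rpow_natCast, ← Real.rpow_mul (by positivity), Real.mul_rpow (by norm_num)
      (by positivity), ← Real.rpow_natCast ((n : ℝ) + 1) 3, ← Real.rpow_mul hn1.le]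
    congr 1
    · congr 1; push_cast; ring
    · congr 1; push_cast; ring
  calc (n : ℝ) - m ≤ 11 / 2 * (C * (256 * ρ ^ 6) ^ (ε / 6)) ^ 2 := h3
    _ ≤ 11 / 2 * (C * (16384 * ((n : ℝ) + 1) ^ 3) ^ (ε / 6)) ^ 2 := by
        gcongr
    _ = 11 / 2 * C ^ 2 * ((16384 * ((n : ℝ) + 1) ^ 3) ^ (ε / 6)) ^ 2 := by ring
    _ = 11 / 2 * C ^ 2 * (16384 : ℝ) ^ (ε / 3) * ((n : ℝ) + 1) ^ ε := by rw [h7]; ring

end Pool.Agent.H80.MC
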