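import Mathlib

/-!
# Representations as a sum of two squares

A bound for the number of integer points on the circle x² + y² = N in terms of the number of
divisors of 4N.
-/

namespace Pool.Agent.H80.MC

open Finset

/-- The integer points on the circle x² + y² = N. -/
noncomputable def reps (N : ℕ) : Finset (ℤ × ℤ) :=
  ((Finset.Icc (-(N : ℤ)) N) ×ˢ (Finset.Icc (-(N : ℤ)) N)).filter
    (fun p => p.1 ^ 2 + p.2 ^ 2 = (N : ℤ))

lemma mem_reps (N : ℕ) (p : ℤ × ℤ) : p ∈ reps N ↔ p.1 ^ 2 + p.2 ^ 2 = (N : ℤ) := by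
  constructor
  · intro h
    exact (Finset.mem_filter.1 h).2
  · intro h
    refine Finset.mem_filter.2 ⟨?_, h⟩
    have hb : ∀ a b : ℤ, a ^ 2 + b ^ 2 = (N : ℤ) → a ∈ Finset.Icc (-(N : ℤ)) N := by
      intro a b hab
      rw [Finset.mem_Icc]
      have h1 : a ^ 2 ≤ N := by nlinarith [sq_nonneg b]
      constructor
      · by_contra hc
        push Not at hc
        nlinarith
      · by_contra hc
        push Not at hc
        nlinarith
    exact Finset.mem_product.2 ⟨hb _ _ h, hb p.2 p.1 (by linarith)⟩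

/-- The data attached to a second point on the circle. -/
lemma param (x0 y0 x y : ℤ) (h : x ^ 2 + y ^ 2 = x0 ^ 2 + y0 ^ 2) (hne : ¬ (x = x0 ∧ y = y0)) :
    ∃ u v s t : ℤ, x = x0 + u * s ∧ y = y0 - v * s ∧ 0 < u ^ 2 + v ^ 2 ∧
      (u ^ 2 + v ^ 2) * t = 2 * (v * x0 + u * y0) ∧ (u ^ 2 + v ^ 2) * s = 2 * (v * y0 - u * x0) ∧
      (u ^ 2 + v ^ 2) * (s ^ 2 + t ^ 2) = 4 * (x0 ^ 2 + y0 ^ 2) := by
  set a := x - x0 with ha
  set b := y0 - y with hb
  have hg : 0 < Int.gcd a b := by
    rcases Nat.eq_zero_or_pos (Int.gcd a b) with h0 | h0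
    · exfalso
      rw [Int.gcd_eq_zero_iff] at h0
      exact hne ⟨by omega, by omega⟩
    · exact h0
  set s : ℤ := (Int.gcd a b : ℤ) with hs
  have hs0 : 0 < s := by rw [hs]; exact_mod_cast hg
  obtain ⟨u, hu⟩ : s ∣ a := Int.gcd_dvd_left _ _
  obtain ⟨v, hv⟩ : s ∣ b := Int.gcd_dvd_right _ _
  have hcop : IsCoprime u v := by
    rw [Int.isCoprime_iff_gcd_eq_one]
    have h1 : Int.gcd (s * u) (s * v) = s.natAbs * Int.gcd u v := Int.gcd_mul_left ..
    rw [← hu, ← hv] at h1
    have h2 : s.natAbs = Int.gcd a b := by rw [hs]; simp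
    rw [h2] at h1
    have h3 : Int.gcd a b * 1 = Int.gcd a b * Int.gcd u v := by rw [mul_one]; exact h1
    exact (Nat.eq_of_mul_eq_mul_left hg h3).symm
  have hprod : a * (x + x0) = b * (y + y0) := by
    rw [ha, hb]; nlinarith
  have hprod2 : u * (x + x0) = v * (y + y0) := by
    have : s * (u * (x + x0)) = s * (v * (y + y0)) := by
      calc s * (u * (x + x0)) = (s * u) * (x + x0) := by ring
        _ = a * (x + x0) := by rw [← hu]
        _ = b * (y + y0) := hprod
        _ = (s * v) * (y + y0) := by rw [← hv]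
        _ = s * (v * (y + y0)) := by ring
    exact mul_left_cancel₀ hs0.ne' this
  obtain ⟨p, q, hpq⟩ := hcop
  set t : ℤ := p * (y + y0) + q * (x + x0) with ht
  have hA : x + x0 = v * t := by
    calc x + x0 = (p * u + q * v) * (x + x0) := by rw [hpq]; ring
      _ = p * (u * (x + x0)) + q * v * (x + x0) := by ring
      _ = p * (v * (y + y0)) + q * v * (x + x0) := by rw [hprod2]
      _ = v * t := by rw [ht]; ring
  have hB : y + y0 = u * t := by
    calc y + y0 = (p * u + q * v) * (y + y0) := by rw [hpq]; ring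
      _ = p * u * (y + y0) + q * (v * (y + y0)) := by ring
      _ = p * u * (y + y0) + q * (u * (x + x0)) := by rw [hprod2]
      _ = u * t := by rw [ht]; ring
  have hx : x = x0 + u * s := by
    have : x - x0 = s * u := hu
    linarith [mul_comm s u]
  have hy : y = y0 - v * s := by
    have : y0 - y = s * v := hv
    linarith [mul_comm s v]
  have e1 : 2 * x0 = v * t - u * s := by linarith
  have e2 : 2 * y0 = u * t + v * s := by linarith
  refine ⟨u, v, s, t, hx, hy, ?_, ?_, ?_, ?_⟩
  · by_contra hc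
    push Not at hc
    have hu0 : u = 0 := by
      have := sq_nonneg u
      have := sq_nonneg v
      have h3 : u ^ 2 = 0 := by linarith
      exact pow_eq_zero_iff (two_ne_zero) |>.1 h3
    have hv0 : v = 0 := by
      have := sq_nonneg u
      have := sq_nonneg v
      have h3 : v ^ 2 = 0 := by linarith
      exact pow_eq_zero_iff (two_ne_zero) |>.1 h3
    rw [hu0, hv0] at hpq
    simp at hpq
  · have : 2 * (v * x0 + u * y0) = v * (2 * x0) + u * (2 * y0) := by ring
    rw [this, e1, e2]; ring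
  · have : 2 * (v * y0 - u * x0) = v * (2 * y0) - u * (2 * x0) := by ring
    rw [this, e1, e2]; ring
  · have : 4 * (x0 ^ 2 + y0 ^ 2) = (2 * x0) ^ 2 + (2 * y0) ^ 2 := by ring
    rw [this, e1, e2]; ring

/-- If M has a primitive representation, then the number of all representations is at most
one plus ten times the number of divisors of 4M. -/
theorem prim_bound (M : ℕ) (hM : 0 < M) (x0 y0 : ℤ) (hc : IsCoprime x0 y0)
    (h0 : x0 ^ 2 + y0 ^ 2 = (M : ℤ)) :
    (reps M).card ≤ 1 + 10 * (4 * M).divisors.card := by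
  classical
  set S := (reps M).erase (x0, y0) with hS
  have hcard : (reps M).card ≤ 1 + S.card := by
    have h := Finset.pred_card_le_card_erase (s := reps M) (a := (x0, y0))
    rw [← hS] at h
    omega
  have hpar : ∀ P : ℤ × ℤ, P ∈ S → ∃ u v s t : ℤ, P.1 = x0 + u * s ∧ P.2 = y0 - v * s ∧
      0 < u ^ 2 + v ^ 2 ∧
      (u ^ 2 + v ^ 2) * t = 2 * (v * x0 + u * y0) ∧ (u ^ 2 + v ^ 2) * s = 2 * (v * y0 - u * x0) ∧
      (u ^ 2 + v ^ 2) * (s ^ 2 + t ^ 2) = 4 * (x0 ^ 2 + y0 ^ 2) := by
    intro P hP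
    have hP' := Finset.mem_erase.1 hP
    refine param x0 y0 P.1 P.2 ?_ ?_
    · rw [(mem_reps M P).1 hP'.2, h0]
    · rintro ⟨h1, h2⟩
      exact hP'.1 (Prod.ext h1 h2)
  choose! u v s t hx hy hd ht hs hst using hpar
  have hmain : S.card ≤ 10 * (S.image (fun P => ((u P) ^ 2 + (v P) ^ 2).toNat)).card := by
    refine Finset.card_le_mul_card_image S 10 ?_
    intro d hdim
    obtain ⟨P1, hP1, hd1⟩ := Finset.mem_image.1 hdim
    set F := S.filter (fun P => ((u P) ^ 2 + (v P) ^ 2).toNat = d) with hF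
    have hdz : ∀ P ∈ F, (u P) ^ 2 + (v P) ^ 2 = (u P1) ^ 2 + (v P1) ^ 2 := by
      intro P hP
      have h1 := (Finset.mem_filter.1 hP).2
      have h2 := hd P (Finset.mem_filter.1 hP).1
      have h3 := hd P1 hP1
      have h4 : ((u P) ^ 2 + (v P) ^ 2).toNat = ((u P1) ^ 2 + (v P1) ^ 2).toNat := by
        rw [h1, hd1]
      omega
    set D : ℤ := (u P1) ^ 2 + (v P1) ^ 2 with hD
    have hD0 : 0 < D := hd P1 hP1
    -- the two invariants
    set w : ℤ × ℤ → ℤ := fun P => v P1 * u P - v P * u P1 with hw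
    set e : ℤ × ℤ → ℤ := fun P => u P * u P1 + v P * v P1 with he
    have hwe : ∀ P ∈ F, (e P) ^ 2 + (w P) ^ 2 = D ^ 2 := by
      intro P hP
      have := hdz P hP
      have h5 : (e P) ^ 2 + (w P) ^ 2 = ((u P) ^ 2 + (v P) ^ 2) * D := by
        simp only [he, hw, hD]; ring
      rw [h5, this]; ring
    have hdw : ∀ P ∈ F, D ∣ 2 * w P := by
      intro P hP
      have hPS := (Finset.mem_filter.1 hP).1
      have e1 := ht P hPS
      have e2 := hs P hPS
      have e3 := ht P1 hP1
      have e4 := hs P1 hP1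
      rw [hdz P hP] at e1 e2
      rw [← hD] at e3 e4
      have k1 : 2 * (x0 * w P) = D * (u P * t P1 - u P1 * t P) := by
        have : D * (u P * t P1 - u P1 * t P) = u P * (D * t P1) - u P1 * (D * t P) := by ring
        rw [this, e1, e3]; simp only [hw]; ring
      have k2 : 2 * (y0 * w P) = D * (u P * s P1 - u P1 * s P) := by
        have : D * (u P * s P1 - u P1 * s P) = u P * (D * s P1) - u P1 * (D * s P) := by ring
        rw [this, e2, e4]; simp only [hw]; ring
      obtain ⟨a, b, hab⟩ := hc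
      have : 2 * w P = D * (a * (u P * t P1 - u P1 * t P) + b * (u P * s P1 - u P1 * s P)) := by
        calc 2 * w P = (a * x0 + b * y0) * (2 * w P) := by rw [hab]; ring
          _ = a * (2 * (x0 * w P)) + b * (2 * (y0 * w P)) := by ring
          _ = _ := by rw [k1, k2]; ring
      exact ⟨_, this⟩
    have hmaps : ∀ P ∈ F, (2 * w P / D, decide (0 ≤ e P)) ∈
        (Finset.Icc (-2 : ℤ) 2) ×ˢ (Finset.univ : Finset Bool) := by
      intro P hP
      obtain ⟨k, hk⟩ := hdw P hP
      have hdiv : 2 * w P / D = k := by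
        rw [hk]; exact Int.mul_ediv_cancel_left k hD0.ne'
      rw [Finset.mem_product, hdiv]
      refine ⟨?_, Finset.mem_univ _⟩
      have h1 := hwe P hP
      have h2 : (w P) ^ 2 ≤ D ^ 2 := by nlinarith [sq_nonneg (e P)]
      have h3 : |w P| ≤ D := abs_le_of_sq_le_sq h2 hD0.le
      have h4 := abs_le.1 h3
      rw [Finset.mem_Icc]
      constructor
      · by_contra hcon
        push Not at hcon
        have : k ≤ -3 := by omega
        nlinarith
      · by_contra hcon
        push Not at hcon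
        have : 3 ≤ k := by omega
        nlinarith
    have hinj : Set.InjOn (fun P => (2 * w P / D, decide (0 ≤ e P))) (F : Set (ℤ × ℤ)) := by
      intro P hP Q hQ hPQ
      have hP' : P ∈ F := hP
      have hQ' : Q ∈ F := hQ
      simp only [Prod.mk.injEq, decide_eq_decide] at hPQ
      obtain ⟨kP, hkP⟩ := hdw P hP'
      obtain ⟨kQ, hkQ⟩ := hdw Q hQ'
      have hkk : kP = kQ := by
        have h1 : 2 * w P / D = kP := by rw [hkP]; exact Int.mul_ediv_cancel_left kP hD0.ne'
        have h2 : 2 * w Q / D = kQ := by rw [hkQ]; exact Int.mul_ediv_cancel_left kQ hD0.ne'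
        rw [← h1, ← h2]; exact hPQ.1
      have hww : w P = w Q := by
        have : 2 * w P = 2 * w Q := by rw [hkP, hkQ, hkk]
        linarith
      have hee : e P = e Q := by
        have h1 := hwe P hP'
        have h2 := hwe Q hQ'
        rw [hww] at h1
        have h3 : (e P) ^ 2 = (e Q) ^ 2 := by linarith
        rcases sq_eq_sq_iff_eq_or_eq_neg.1 h3 with h4 | h4
        · exact h4
        · have h5 := hPQ.2
          by_cases h6 : 0 ≤ e P
          · have h7 := h5.1 h6
            omega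
          · have h7 : ¬ 0 ≤ e Q := fun hq => h6 (h5.2 hq)
            omega
      have hu : u P = u Q := by
        have h1 : D * u P = e P * u P1 + w P * v P1 := by
          simp only [he, hw, hD]; ring
        have h2 : D * u Q = e Q * u P1 + w Q * v P1 := by
          simp only [he, hw, hD]; ring
        have h3 : D * u P = D * u Q := by rw [h1, h2, hee, hww]
        exact mul_left_cancel₀ hD0.ne' h3
      have hv : v P = v Q := by
        have h1 : D * v P = e P * v P1 - w P * u P1 := by
          simp only [he, hw, hD]; ring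
        have h2 : D * v Q = e Q * v P1 - w Q * u P1 := by
          simp only [he, hw, hD]; ring
        have h3 : D * v P = D * v Q := by rw [h1, h2, hee, hww]
        exact mul_left_cancel₀ hD0.ne' h3
      have hPS := (Finset.mem_filter.1 hP').1
      have hQS := (Finset.mem_filter.1 hQ').1
      have hss : s P = s Q := by
        have h1 := hs P hPS
        have h2 := hs Q hQS
        rw [hdz P hP'] at h1
        rw [hdz Q hQ'] at h2
        have h3 : D * s P = D * s Q := by rw [h1, h2, hu, hv]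
        exact mul_left_cancel₀ hD0.ne' h3
      refine Prod.ext ?_ ?_
      · rw [hx P hPS, hx Q hQS, hu, hss]
      · rw [hy P hPS, hy Q hQS, hv, hss]
    calc F.card ≤ ((Finset.Icc (-2 : ℤ) 2) ×ˢ (Finset.univ : Finset Bool)).card :=
          Finset.card_le_card_of_injOn _ hmaps hinj
      _ = 10 := by rw [Finset.card_product]; simp
  have himg : (S.image (fun P => ((u P) ^ 2 + (v P) ^ 2).toNat)).card ≤
      (4 * M).divisors.card := by
    refine Finset.card_le_card ?_
    intro d hdim
    obtain ⟨P, hP, hdP⟩ := Finset.mem_image.1 hdim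
    rw [Nat.mem_divisors]
    refine ⟨?_, by omega⟩
    have h1 := hst P hP
    have h2 := hd P hP
    rw [h0] at h1
    have h3 : ((d : ℕ) : ℤ) = (u P) ^ 2 + (v P) ^ 2 := by
      rw [← hdP]; exact Int.toNat_of_nonneg h2.le
    have h4 : (d : ℤ) ∣ ((4 * M : ℕ) : ℤ) := by
      rw [h3]
      refine ⟨(s P) ^ 2 + (t P) ^ 2, ?_⟩
      push_cast
      linarith
    exact_mod_cast h4
  calc (reps M).card ≤ 1 + S.card := hcard
    _ ≤ 1 + 10 * (4 * M).divisors.card := by
        have := hmain.trans (Nat.mul_le_mul_left 10 himg)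
        omega

/-- The number of integer points on x² + y² = N is at most 11 times the square of the number of
divisors of 4N. -/
theorem rep_bound (N : ℕ) (hN : 0 < N) :
    (reps N).card ≤ 11 * (4 * N).divisors.card ^ 2 := by
  classical
  have hτ : 1 ≤ (4 * N).divisors.card := by
    rw [Nat.one_le_iff_ne_zero, Finset.card_ne_zero]
    exact ⟨1, Nat.one_mem_divisors.2 (by omega)⟩
  have hτ2 : N.divisors.card ≤ (4 * N).divisors.card :=
    Finset.card_le_card (Nat.divisors_subset_of_dvd (by omega) ⟨4, by ring⟩)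
  have hmain : (reps N).card ≤ (1 + 10 * (4 * N).divisors.card) *
      ((reps N).image (fun P => Int.gcd P.1 P.2)).card := by
    refine Finset.card_le_mul_card_image _ _ ?_
    intro g hg
    obtain ⟨P0, hP0, hgP0⟩ := Finset.mem_image.1 hg
    have hP0' := (mem_reps N P0).1 hP0
    have hg0 : 0 < g := by
      rcases Nat.eq_zero_or_pos g with h | h
      · exfalso
        rw [h, Int.gcd_eq_zero_iff] at hgP0
        rw [hgP0.1, hgP0.2] at hP0'
        simp at hP0'
        omega
      · exact h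
    have hgz : (0 : ℤ) < g := by exact_mod_cast hg0
    -- the quotient
    obtain ⟨a, ha⟩ : (g : ℤ) ∣ P0.1 := by rw [← hgP0]; exact Int.gcd_dvd_left _ _
    obtain ⟨b, hb⟩ : (g : ℤ) ∣ P0.2 := by rw [← hgP0]; exact Int.gcd_dvd_right _ _
    have hcop : IsCoprime a b := by
      rw [Int.isCoprime_iff_gcd_eq_one]
      have h1 : Int.gcd ((g : ℤ) * a) ((g : ℤ) * b) = (g : ℤ).natAbs * Int.gcd a b :=
        Int.gcd_mul_left ..
      rw [← ha, ← hb, hgP0] at h1
      simp only [Int.natAbs_natCast] at h1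
      have h3 : g * 1 = g * Int.gcd a b := by rw [mul_one]; exact h1
      exact (Nat.eq_of_mul_eq_mul_left hg0 h3).symm
    set M : ℕ := (a ^ 2 + b ^ 2).toNat with hM
    have hMz : (M : ℤ) = a ^ 2 + b ^ 2 := Int.toNat_of_nonneg (by positivity)
    have hNM : (N : ℤ) = (g : ℤ) ^ 2 * M := by
      rw [← hP0', ha, hb, hMz]; ring
    have hNM' : N = g ^ 2 * M := by exact_mod_cast hNM
    have hMpos : 0 < M := by
      rcases Nat.eq_zero_or_pos M with h | h
      · rw [h] at hNM'; omega
      · exact h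
    have hfib : ((reps N).filter (fun P => Int.gcd P.1 P.2 = g)).card ≤ (reps M).card := by
      refine Finset.card_le_card_of_injOn (fun P => (P.1 / g, P.2 / g)) ?_ ?_
      · intro P hP
        have hP1 := Finset.mem_filter.1 (Finset.mem_coe.1 hP)
        have hPN := (mem_reps N P).1 hP1.1
        obtain ⟨a', ha'⟩ : (g : ℤ) ∣ P.1 := by rw [← hP1.2]; exact Int.gcd_dvd_left _ _
        obtain ⟨b', hb'⟩ : (g : ℤ) ∣ P.2 := by rw [← hP1.2]; exact Int.gcd_dvd_right _ _
        have h1 : P.1 / (g : ℤ) = a' := by rw [ha']; exact Int.mul_ediv_cancel_left a' hgz.ne'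
        have h2 : P.2 / (g : ℤ) = b' := by rw [hb']; exact Int.mul_ediv_cancel_left b' hgz.ne'
        refine Finset.mem_coe.2 ((mem_reps M _).2 ?_)
        simp only [h1, h2]
        have h3 : (g : ℤ) ^ 2 * (a' ^ 2 + b' ^ 2) = (g : ℤ) ^ 2 * M := by
          rw [← hNM, ← hPN, ha', hb']; ring
        exact mul_left_cancel₀ (by positivity) h3
      · intro P hP Q hQ hPQ
        have hP1 := Finset.mem_filter.1 (Finset.mem_coe.1 hP)
        have hQ1 := Finset.mem_filter.1 (Finset.mem_coe.1 hQ)
        obtain ⟨a', ha'⟩ : (g : ℤ) ∣ P.1 := by rw [← hP1.2]; exact Int.gcd_dvd_left _ _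
        obtain ⟨b', hb'⟩ : (g : ℤ) ∣ P.2 := by rw [← hP1.2]; exact Int.gcd_dvd_right _ _
        obtain ⟨a2, ha2⟩ : (g : ℤ) ∣ Q.1 := by rw [← hQ1.2]; exact Int.gcd_dvd_left _ _
        obtain ⟨b2, hb2⟩ : (g : ℤ) ∣ Q.2 := by rw [← hQ1.2]; exact Int.gcd_dvd_right _ _
        simp only [Prod.mk.injEq] at hPQ
        have h1 : P.1 / (g : ℤ) = a' := by rw [ha']; exact Int.mul_ediv_cancel_left a' hgz.ne'
        have h2 : P.2 / (g : ℤ) = b' := by rw [hb']; exact Int.mul_ediv_cancel_left b' hgz.ne'
        have h3 : Q.1 / (g : ℤ) = a2 := by rw [ha2]; exact Int.mul_ediv_cancel_left a2 hgz.ne'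
        have h4 : Q.2 / (g : ℤ) = b2 := by rw [hb2]; exact Int.mul_ediv_cancel_left b2 hgz.ne'
        refine Prod.ext ?_ ?_
        · rw [ha', ha2, ← h1, ← h3, hPQ.1]
        · rw [hb', hb2, ← h2, ← h4, hPQ.2]
    have hprim := prim_bound M hMpos a b hcop hMz.symm
    have hdiv : (4 * M).divisors.card ≤ (4 * N).divisors.card :=
      Finset.card_le_card (Nat.divisors_subset_of_dvd (by omega) ⟨g ^ 2, by rw [hNM']; ring⟩)
    calc ((reps N).filter (fun P => Int.gcd P.1 P.2 = g)).card ≤ (reps M).card := hfib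
      _ ≤ 1 + 10 * (4 * M).divisors.card := hprim
      _ ≤ 1 + 10 * (4 * N).divisors.card := by omega
  have himg : ((reps N).image (fun P => Int.gcd P.1 P.2)).card ≤ N.divisors.card := by
    refine Finset.card_le_card ?_
    intro g hg
    obtain ⟨P, hP, hgP⟩ := Finset.mem_image.1 hg
    have hPN := (mem_reps N P).1 hP
    rw [Nat.mem_divisors]
    refine ⟨?_, by omega⟩
    have h1 : (g : ℤ) ∣ P.1 := by rw [← hgP]; exact Int.gcd_dvd_left _ _
    have h2 : (g : ℤ) ∣ P.2 := by rw [← hgP]; exact Int.gcd_dvd_right _ _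
    have h3 : (g : ℤ) ∣ (N : ℤ) := by
      rw [← hPN]
      exact dvd_add (dvd_pow h1 two_ne_zero) (dvd_pow h2 two_ne_zero)
    exact_mod_cast h3
  set τ := (4 * N).divisors.card with hτdef
  calc (reps N).card ≤ (1 + 10 * τ) * ((reps N).image (fun P => Int.gcd P.1 P.2)).card := hmain
    _ ≤ (1 + 10 * τ) * τ := Nat.mul_le_mul_left _ (himg.trans hτ2)
    _ ≤ 11 * τ ^ 2 := by nlinarith

end Pool.Agent.H80.MC
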